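import Pool.Agent.W2helper78.LT.Stm

/-!
Project LT, piece NB2: with high probability there is a cluster of large diameter (two-dimensional
version of `H342P.pr_not_big`).
-/

set_option autoImplicit false

namespace Pool.Agent.W2helper92.LT

open W78LT H974 Finset H342P

/-- the support of the crossing of the square `q` -/
noncomputable abbrev sq (L : ℕ) (q : ℕ × ℕ) : Finset Edg :=
  LRE ((q.1:ℤ) * (L + 1)) ((q.1:ℤ) * (L + 1) + L) ((q.2:ℤ) * (L + 1)) ((q.2:ℤ) * (L + 1) + L)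

/-- the crossing of the square `q` -/
abbrev sqc (L : ℕ) (q : ℕ × ℕ) (F : Finset Edg) : Prop :=
  LRc ((q.1:ℤ) * (L + 1)) ((q.1:ℤ) * (L + 1) + L) ((q.2:ℤ) * (L + 1)) ((q.2:ℤ) * (L + 1) + L) F

lemma sep_mul {L i j : ℕ} (h : i ≠ j) :
    (i:ℤ) * (L + 1) + L < (j:ℤ) * (L + 1) ∨ (j:ℤ) * (L + 1) + L < (i:ℤ) * (L + 1) := by
  have key : ∀ a b : ℕ, a < b → (a:ℤ) * (L + 1) + L < (b:ℤ) * (L + 1) := by
    intro a b hab
    have h1 : ((a:ℤ) + 1) * (L + 1) ≤ (b:ℤ) * (L + 1) := by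
      apply mul_le_mul_of_nonneg_right _ (by positivity)
      exact_mod_cast hab
    have h2 : ((a:ℤ) + 1) * (L + 1) = (a:ℤ) * (L + 1) + L + 1 := by ring
    omega
  rcases lt_or_gt_of_ne h with h | h
  · exact Or.inl (key i j h)
  · exact Or.inr (key j i h)

lemma sq_disj {L : ℕ} {q r : ℕ × ℕ} (h : q ≠ r) : Disjoint (sq L q) (sq L r) := by
  rw [Finset.disjoint_left]
  rintro ⟨x, y, t⟩ h1 h2
  have h3 : (q.1:ℤ) * (L + 1) ≤ x ∧ x ≤ (q.1:ℤ) * (L + 1) + L ∧ (q.2:ℤ) * (L + 1) ≤ y ∧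
      y ≤ (q.2:ℤ) * (L + 1) + L := by
    cases t
    · rw [mem_LRE_false] at h1; omega
    · rw [mem_LRE_true] at h1; omega
  have h4 : (r.1:ℤ) * (L + 1) ≤ x ∧ x ≤ (r.1:ℤ) * (L + 1) + L ∧ (r.2:ℤ) * (L + 1) ≤ y ∧
      y ≤ (r.2:ℤ) * (L + 1) + L := by
    cases t
    · rw [mem_LRE_false] at h2; omega
    · rw [mem_LRE_true] at h2; omega
  by_cases h5 : q.1 = r.1
  · have h6 : q.2 ≠ r.2 := fun h6 => h (Prod.ext h5 h6)
    rcases sep_mul (L := L) h6 with h7 | h7 <;> omega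
  · rcases sep_mul (L := L) h5 with h7 | h7 <;> omega

theorem nb2 : St_NB2 := by
  intro n L K m hL hm0 hm hK
  have hok : Ok (fun _ : Edg => (1/2:ℝ)) := fun _ => ⟨by norm_num, by norm_num⟩
  have hi : ∀ i < K, ((i:ℤ) * (L + 1) + L) ≤ n := by
    intro i hi
    have h5 : ((i:ℤ) + 1) * (L + 1) ≤ (K:ℤ) * (L + 1) := by
      apply mul_le_mul_of_nonneg_right _ (by positivity)
      exact_mod_cast hi
    have h6 : (K:ℤ) * (L + 1) ≤ n + 1 := by exact_mod_cast hK
    have h7 : ((i:ℤ) + 1) * (L + 1) = (i:ℤ) * (L + 1) + L + 1 := by ring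
    omega
  have hi0 : ∀ i : ℕ, 0 ≤ (i:ℤ) * (L + 1) := fun i => by positivity
  set I := range K ×ˢ range K with hI
  have hsub : ∀ q ∈ I, sq L q ⊆ RE 0 n 0 n := by
    rintro ⟨i, j⟩ hq e he
    rw [hI, mem_product, mem_range, mem_range] at hq
    have := hi i hq.1
    have := hi j hq.2
    have := hi0 i
    have := hi0 j
    obtain ⟨x, y, t⟩ := e
    cases t
    · rw [mem_LRE_false] at he; rw [mem_RE_false]; simp only at he; omega
    · rw [mem_LRE_true] at he; rw [mem_RE_true]; simp only at he; omega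
  have h1 : PP (RE 0 n 0 n) (fun F => ¬ Big n m (↑F)) ≤
      Ex (fun _ => (1/2:ℝ)) (RE 0 n 0 n) (fun F => ∏ q ∈ I, ind (¬ sqc L q F)) := by
    refine Ex_mono hok fun F _ => ?_
    by_cases hB : ¬ Big n m (↑F)
    · rw [ind_of hB]
      refine le_of_eq (prod_eq_one fun q hq => ?_).symm
      refine ind_of fun h => hB ?_
      obtain ⟨y, y', h1, h2, h3⟩ := LRc_fst h
      rw [hI, mem_product, mem_range, mem_range] at hq
      have := hi q.1 hq.1
      have := hi q.2 hq.2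
      have := hi0 q.1
      have := hi0 q.2
      refine ⟨((q.1:ℤ) * (L + 1), y), ((q.1:ℤ) * (L + 1) + L, y'), ?_, ?_, h3, ?_⟩
      · unfold inR; simp only; omega
      · unfold inR; simp only; omega
      · unfold dsq
        simp only
        have h8 : (3 * m) ^ 2 ≤ (L:ℤ) ^ 2 := pow_le_pow_left₀ (by omega) hm 2
        nlinarith [sq_nonneg (y - y'), sq_nonneg m]
    · rw [ind_not_of hB]
      exact prod_nonneg fun q _ => ind_nonneg _
  refine h1.trans ?_
  rw [TH992.T.Ex_prod_indep I (fun q => sq L q) hsub (fun q _ r _ h => sq_disj h)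
    (fun q F => ind (¬ sqc L q F))
    (fun q _ F _ => ind_congr (not_congr (LRc_local (Finset.Subset.refl _))))]
  have h2 : ∀ q ∈ I, Ex (fun _ => (1/2:ℝ)) (RE 0 n 0 n) (fun F => ind (¬ sqc L q F)) ≤ 1/2 := by
    intro q hq
    have h3 : Pr (fun _ => (1/2:ℝ)) (RE 0 n 0 n) (fun F => ¬ sqc L q F) ≤ 1/2 := by
      rw [Pr_not, pr_LRc _ (hsub q hq)]
      have h3 := hh_square (L:ℤ) (by exact_mod_cast hL)
      have e1 : (q.1:ℤ) * (L + 1) + L - (q.1:ℤ) * (L + 1) = L := by ring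
      have e2 : (q.2:ℤ) * (L + 1) + L - (q.2:ℤ) * (L + 1) = L := by ring
      rw [e1, e2]
      linarith
    exact h3
  refine (prod_le_prod (fun q _ => Pr_nonneg hok _ _) h2).trans (le_of_eq ?_)
  rw [prod_const, hI, card_product, card_range]

end Pool.Agent.W2helper92.LT
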