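import Pool.Agent.W2helper78.LT.Stm

/-!
Project LT, pieces NF and NL: independence and Harris for two families of events.
-/

set_option autoImplicit false

namespace Pool.Agent.W2helper92.LT

open W78LT H974 Finset

theorem hok : Ok (fun _ : Edg => (1/2:ℝ)) := fun _ => ⟨by norm_num, by norm_num⟩

/-- Harris' inequality for an increasing event and a family of increasing events -/
theorem incr_prod {S : Finset Edg} (A : ℕ → Finset Edg → Prop) (B : Finset Edg → Prop)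
    (hB : IncrE S B) (I : Finset ℕ) (x : ℕ → ℝ) (hA : ∀ i ∈ I, IncrE S (A i))
    (hx : ∀ i ∈ I, 0 ≤ x i ∧ x i ≤ PP S (A i)) :
    (∏ i ∈ I, x i) * PP S B ≤ PP S (fun F => B F ∧ ∀ i ∈ I, A i F) := by
  induction I using Finset.induction_on with
  | empty => simp
  | insert i I hi ih =>
    have ih' := ih (fun j hj => hA j (mem_insert_of_mem hj))
      (fun j hj => hx j (mem_insert_of_mem hj))
    have h1 : IncrE S (fun F => B F ∧ ∀ i ∈ I, A i F) := fun F G h h2 h3 =>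
      ⟨hB F G h h2 h3.1, fun j hj => hA j (mem_insert_of_mem hj) F G h h2 (h3.2 j hj)⟩
    have h2 := Pr_harris hok (hA i (mem_insert_self i I)) h1
    obtain ⟨h3, h4⟩ := hx i (mem_insert_self i I)
    rw [prod_insert hi, mul_assoc]
    have h5 : x i * ((∏ j ∈ I, x j) * PP S B) ≤ PP S (A i) *
        PP S (fun F => B F ∧ ∀ i ∈ I, A i F) := by
      refine mul_le_mul h4 ih' ?_ (h3.trans h4)
      exact mul_nonneg (prod_nonneg fun j hj => (hx j (mem_insert_of_mem hj)).1)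
        (Pr_nonneg hok _ _)
    refine h5.trans (h2.trans (le_of_eq ?_))
    apply Pr_congr
    intro F _
    constructor
    · rintro ⟨h, h', h''⟩
      refine ⟨h', fun j hj => ?_⟩
      rcases mem_insert.1 hj with rfl | hj
      · exact h
      · exact h'' j hj
    · rintro ⟨h', h⟩
      exact ⟨h i (mem_insert_self i I), h', fun j hj => h j (mem_insert_of_mem hj)⟩

theorem harris_decr {S : Finset Edg} {A B : Finset Edg → Prop} (hA : DecrE S A)
    (hB : DecrE S B) : PP S A * PP S B ≤ PP S (fun F => A F ∧ B F) := by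
  have h := Pr_harris_dd (p := fun _ : Edg => (1/2:ℝ)) hok (S := S) (A := fun F => ¬ A F)
    (B := fun F => ¬ B F) (fun F G h h2 h3 h4 => h3 (hA F G h h2 h4))
    (fun F G h h2 h3 h4 => h3 (hB F G h h2 h4))
  rw [Pr_not, Pr_not] at h
  have h1 : PP S (fun F => A F ∧ B F) = Pr (fun _ => (1/2:ℝ)) S (fun F => ¬ ¬ A F ∧ ¬ ¬ B F) := by
    apply Pr_congr
    intro F _
    rw [not_not, not_not]
  rw [h1]
  refine le_trans (le_of_eq ?_) h
  show PP S A * PP S B = (1 - (1 - PP S A)) * (1 - (1 - PP S B))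
  ring

/-- Harris' inequality for a decreasing event and a family of decreasing events -/
theorem decr_prod {S : Finset Edg} (A : ℕ → Finset Edg → Prop) (B : Finset Edg → Prop)
    (hB : DecrE S B) (I : Finset ℕ) (x : ℕ → ℝ) (hA : ∀ i ∈ I, DecrE S (A i))
    (hx : ∀ i ∈ I, 0 ≤ x i ∧ x i ≤ PP S (A i)) :
    (∏ i ∈ I, x i) * PP S B ≤ PP S (fun F => B F ∧ ∀ i ∈ I, A i F) := by
  induction I using Finset.induction_on with
  | empty => simp
  | insert i I hi ih =>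
    have ih' := ih (fun j hj => hA j (mem_insert_of_mem hj))
      (fun j hj => hx j (mem_insert_of_mem hj))
    have h1 : DecrE S (fun F => B F ∧ ∀ i ∈ I, A i F) := fun F G h h2 h3 =>
      ⟨hB F G h h2 h3.1, fun j hj => hA j (mem_insert_of_mem hj) F G h h2 (h3.2 j hj)⟩
    have h2 := harris_decr (hA i (mem_insert_self i I)) h1
    obtain ⟨h3, h4⟩ := hx i (mem_insert_self i I)
    rw [prod_insert hi, mul_assoc]
    have h5 : x i * ((∏ j ∈ I, x j) * PP S B) ≤ PP S (A i) *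
        PP S (fun F => B F ∧ ∀ i ∈ I, A i F) := by
      refine mul_le_mul h4 ih' ?_ (h3.trans h4)
      exact mul_nonneg (prod_nonneg fun j hj => (hx j (mem_insert_of_mem hj)).1)
        (Pr_nonneg hok _ _)
    refine h5.trans (h2.trans (le_of_eq ?_))
    apply Pr_congr
    intro F _
    constructor
    · rintro ⟨h, h', h''⟩
      refine ⟨h', fun j hj => ?_⟩
      rcases mem_insert.1 hj with rfl | hj
      · exact h
      · exact h'' j hj
    · rintro ⟨h', h⟩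
      exact ⟨h i (mem_insert_self i I), h', fun j hj => h j (mem_insert_of_mem hj)⟩

/-- the support of an intersection of events -/
theorem loc_all {S T : Finset Edg} (_hT : T ⊆ S) (A : ℕ → Finset Edg → Prop)
    (s : ℕ → Finset Edg) (I : Finset ℕ) (hs : ∀ i ∈ I, s i ⊆ T)
    (hA : ∀ i ∈ I, ∀ F, F ⊆ S → (A i F ↔ A i (F ∩ s i))) :
    ∀ F, F ⊆ S → ((∀ i ∈ I, A i F) ↔ ∀ i ∈ I, A i (F ∩ T)) := by
  intro F hF
  refine forall₂_congr fun i hi => ?_
  rw [hA i hi F hF, hA i hi (F ∩ T) (inter_subset_left.trans hF), inter_assoc,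
    inter_eq_right.2 (hs i hi)]

theorem all_indep {S T1 T2 : Finset Edg} (h1 : T1 ⊆ S) (h2 : T2 ⊆ S) (hd : Disjoint T1 T2)
    (A D : ℕ → Finset Edg → Prop) (sA sD : ℕ → Finset Edg) (I J : Finset ℕ)
    (hsA : ∀ i ∈ I, sA i ⊆ T1) (hsD : ∀ j ∈ J, sD j ⊆ T2)
    (hA : ∀ i ∈ I, ∀ F, F ⊆ S → (A i F ↔ A i (F ∩ sA i)))
    (hD : ∀ j ∈ J, ∀ F, F ⊆ S → (D j F ↔ D j (F ∩ sD j))) :
    PP S (fun F => (∀ i ∈ I, A i F) ∧ ∀ j ∈ J, D j F) =
      PP S (fun F => ∀ i ∈ I, A i F) * PP S (fun F => ∀ j ∈ J, D j F) :=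
  Pr_indep h1 h2 hd (loc_all h1 A sA I hsA hA) (loc_all h2 D sD J hsD hD)

theorem nf : St_NF := by
  intro S T1 T2 K A D sA sD I J I0 J0 q W h1 h2 hd hK hI hJ hq hA hD hsA hsD hAl hDl hAK hDK
    hqA hqD hW
  have hA1 : ∀ i ∈ I \ I0, IncrE S (A i) := fun i hi => hA i (mem_sdiff.1 hi).1
  have hD1 : ∀ j ∈ J \ J0, DecrE S (D j) := fun j hj => hD j (mem_sdiff.1 hj).1
  have hfar := all_indep h1 h2 hd A D sA sD (I \ I0) (J \ J0)
    (fun i hi => hsA i (mem_sdiff.1 hi).1) (fun j hj => hsD j (mem_sdiff.1 hj).1)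
    (fun i hi => hAl i (mem_sdiff.1 hi).1) (fun j hj => hDl j (mem_sdiff.1 hj).1)
  have hall := all_indep h1 h2 hd A D sA sD I J hsA hsD hAl hDl
  have hWf : PP S (fun F => W F ∧ ((∀ i ∈ I \ I0, A i F) ∧ ∀ j ∈ J \ J0, D j F)) =
      PP S W * PP S (fun F => (∀ i ∈ I \ I0, A i F) ∧ ∀ j ∈ J \ J0, D j F) := by
    refine Pr_indep hK (sdiff_subset : S \ K ⊆ S) disjoint_sdiff hW ?_
    intro F hF
    have e1 := loc_all (sdiff_subset : S \ K ⊆ S) A sA (I \ I0) (fun i hi => by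
      rw [subset_sdiff]
      exact ⟨(hsA i (mem_sdiff.1 hi).1).trans h1, hAK i (mem_sdiff.1 hi).1 (mem_sdiff.1 hi).2⟩)
      (fun i hi => hAl i (mem_sdiff.1 hi).1) F hF
    have e2 := loc_all (sdiff_subset : S \ K ⊆ S) D sD (J \ J0) (fun j hj => by
      rw [subset_sdiff]
      exact ⟨(hsD j (mem_sdiff.1 hj).1).trans h2, hDK j (mem_sdiff.1 hj).1 (mem_sdiff.1 hj).2⟩)
      (fun j hj => hDl j (mem_sdiff.1 hj).1) F hF
    rw [e1, e2]
  have hmono : PP S (fun F => W F ∧ (∀ i ∈ I, A i F) ∧ ∀ j ∈ J, D j F) ≤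
      PP S (fun F => W F ∧ ((∀ i ∈ I \ I0, A i F) ∧ ∀ j ∈ J \ J0, D j F)) :=
    Pr_mono hok fun F _ h => ⟨h.1, fun i hi => h.2.1 i (mem_sdiff.1 hi).1,
      fun j hj => h.2.2 j (mem_sdiff.1 hj).1⟩
  have hPA : q ^ I0.card * PP S (fun F => ∀ i ∈ I \ I0, A i F) ≤
      PP S (fun F => ∀ i ∈ I, A i F) := by
    have h := incr_prod A (fun F => ∀ i ∈ I \ I0, A i F)
      (fun F G h h2 h3 i hi => hA1 i hi F G h h2 (h3 i hi)) I0 (fun _ => q)
      (fun i hi => hA i (hI hi)) (fun i hi => ⟨hq.le, hqA i hi⟩)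
    rw [prod_const] at h
    refine h.trans (Pr_mono hok fun F _ h3 i hi => ?_)
    by_cases hi0 : i ∈ I0
    · exact h3.2 i hi0
    · exact h3.1 i (mem_sdiff.2 ⟨hi, hi0⟩)
  have hPD : q ^ J0.card * PP S (fun F => ∀ j ∈ J \ J0, D j F) ≤
      PP S (fun F => ∀ j ∈ J, D j F) := by
    have h := decr_prod D (fun F => ∀ j ∈ J \ J0, D j F)
      (fun F G h h2 h3 j hj => hD1 j hj F G h h2 (h3 j hj)) J0 (fun _ => q)
      (fun j hj => hD j (hJ hj)) (fun j hj => ⟨hq.le, hqD j hj⟩)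
    rw [prod_const] at h
    refine h.trans (Pr_mono hok fun F _ h3 j hj => ?_)
    by_cases hj0 : j ∈ J0
    · exact h3.2 j hj0
    · exact h3.1 j (mem_sdiff.2 ⟨hj, hj0⟩)
  have n1 : 0 ≤ PP S W := Pr_nonneg hok _ _
  have n2 : 0 ≤ PP S (fun F => ∀ i ∈ I, A i F) := Pr_nonneg hok _ _
  have n3 : 0 ≤ PP S (fun F => ∀ j ∈ J \ J0, D j F) := Pr_nonneg hok _ _
  calc q ^ (I0.card + J0.card) * PP S (fun F => W F ∧ (∀ i ∈ I, A i F) ∧ ∀ j ∈ J, D j F)
      ≤ q ^ (I0.card + J0.card) * (PP S W * (PP S (fun F => ∀ i ∈ I \ I0, A i F) *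
          PP S (fun F => ∀ j ∈ J \ J0, D j F))) := by
        refine mul_le_mul_of_nonneg_left ?_ (by positivity)
        rw [← hfar, ← hWf]
        exact hmono
    _ = PP S W * ((q ^ I0.card * PP S (fun F => ∀ i ∈ I \ I0, A i F)) *
          (q ^ J0.card * PP S (fun F => ∀ j ∈ J \ J0, D j F))) := by
        rw [pow_add]
        ring
    _ ≤ PP S W * PP S (fun F => (∀ i ∈ I, A i F) ∧ ∀ j ∈ J, D j F) := by
        rw [hall]
        refine mul_le_mul_of_nonneg_left ?_ n1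
        exact mul_le_mul hPA hPD (by positivity) n2

theorem nl : St_NL := by
  intro S T1 T2 A D sA sD I J x y h1 h2 hd hA hD hsA hsD hAl hDl hx hy
  rw [all_indep h1 h2 hd A D sA sD I J hsA hsD hAl hDl]
  have hT : PP S (fun _ => True) = 1 := Pr_true S fun _ _ => trivial
  have e1 := incr_prod A (fun _ => True) (fun _ _ _ _ _ => trivial) I x hA hx
  have e2 := decr_prod D (fun _ => True) (fun _ _ _ _ _ => trivial) J y hD hy
  rw [hT, mul_one] at e1 e2
  refine mul_le_mul (e1.trans (Pr_mono hok fun F _ h => h.2))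
    (e2.trans (Pr_mono hok fun F _ h => h.2)) (prod_nonneg fun j hj => (hy j hj).1)
    (Pr_nonneg hok _ _)

end Pool.Agent.W2helper92.LT
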